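import Mathlib
import Pool.Agent.Q183.Mag.Cube

/-!
# Magnitude is not continuous on tractable subspaces of `L₁`

The counterexample is the compact set `T ⊆ L₁([0,1])` consisting of `0` and the indicator functions
of the intervals `[i/N, (i+1)/N)`, `0 ≤ i < N`, `N ≥ 1`.  All finite subsets of `T` have magnitude at
most `√e`, but the finite sets `A_N = {0} ∪ {1_{[i/N, (i+1)/N)} : i < N}` converge to `{0}` and have
magnitude at least `5/4`.
-/

set_option autoImplicit false

namespace Pool.Agent.Results.MP_17ecd9_gt.TractableStars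

open MeasureTheory TopologicalSpace Filter Topology Set

/-- The similarity matrix `Z_A` of a finite subset `A` of a metric space. -/
noncomputable def simMatrix {M : Type*} [MetricSpace M] (A : Finset M) : Matrix A A ℝ :=
  fun a b => Real.exp (-dist (a : M) (b : M))

/-- `M` is positive definite: `Z_A` is positive definite for all non-empty finite `A ⊆ M`. -/
def PositiveDefinite (M : Type*) [MetricSpace M] : Prop :=
  ∀ A : Finset M, A.Nonempty → (simMatrix A).PosDef

open Classical in
/-- The magnitude of a finite set: the sum of the entries of the inverse of `Z_A`. -/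
noncomputable def magnitude {M : Type*} [MetricSpace M] (A : Finset M) : ℝ :=
  ∑ a, ∑ b, (simMatrix A)⁻¹ a b

/-- The magnitude of a compact set `K`: the supremum of the magnitudes of its non-empty finite
subsets, as an extended real number. -/
noncomputable def compactMagnitude {M : Type*} [MetricSpace M] (K : Set M) : EReal :=
  ⨆ (A : Finset M) (_ : A.Nonempty ∧ (A : Set M) ⊆ K), (magnitude A : EReal)

/-- A metric space is tractable if it is positive definite, has the Heine-Borel property, and every
closed ball has finite magnitude. -/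
structure Tractable (M : Type*) [MetricSpace M] : Prop where
  positiveDefinite : PositiveDefinite M
  heineBorel : ∀ K : Set M, IsClosed K → Bornology.IsBounded K → IsCompact K
  ball_lt_top : ∀ (x : M) (r : ℝ), compactMagnitude (Metric.closedBall x r) < ⊤

/-- The space `Fin₊(M)` of non-empty finite subsets of `M` with the Hausdorff metric (as a subspace
of Mathlib's space of non-empty compact subsets with the Hausdorff metric). -/
abbrev FinPlus (M : Type*) [MetricSpace M] : Type _ :=
  {K : NonemptyCompacts M // (K : Set M).Finite}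

/-- The map `mag_Fin`. -/
noncomputable def magFin (M : Type*) [MetricSpace M] (K : FinPlus M) : ℝ :=
  magnitude K.2.toFinset

/-- The map `mag_Cmp` (it is meaningful when all compact subsets have finite magnitude, as they do
in a tractable space). -/
noncomputable def magCmp (M : Type*) [MetricSpace M] (K : NonemptyCompacts M) : ℝ :=
  (compactMagnitude (K : Set M)).toReal

/-- `L₁([0,1])`. -/
abbrev L1 : Type := Lp ℝ 1 (volume.restrict (Icc (0 : ℝ) 1))

/-! ### The set `T` -/

/-- Lebesgue measure on `[0,1]`. -/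
noncomputable abbrev mu : Measure ℝ := volume.restrict (Icc (0 : ℝ) 1)

instance : IsProbabilityMeasure mu := ⟨by simp [mu]⟩

/-- The interval `[i/(n+1), (i+1)/(n+1))`. -/
def I (p : Σ n : ℕ, Fin (n + 1)) : Set ℝ :=
  Ico ((p.2 : ℝ) / (p.1 + 1)) (((p.2 : ℝ) + 1) / (p.1 + 1))

lemma measurableSet_I (p : Σ n : ℕ, Fin (n + 1)) : MeasurableSet (I p) := measurableSet_Ico

/-- Indicator functions as elements of `L₁`. -/
noncomputable def ind (s : Set ℝ) (hs : MeasurableSet s) : L1 :=
  indicatorConstLp 1 hs (measure_ne_top mu s) (1 : ℝ)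

lemma dist_ind {s t : Set ℝ} (hs : MeasurableSet s) (ht : MeasurableSet t) :
    dist (ind s hs) (ind t ht) = mu.real (symmDiff s t) := by
  unfold ind
  rw [dist_indicatorConstLp_eq_norm, norm_indicatorConstLp (by simp) (by simp)]
  simp

lemma ind_empty : ind ∅ MeasurableSet.empty = 0 := indicatorConstLp_empty

/-- The set `T`. -/
def T : Set L1 := insert 0 (range fun p => ind (I p) (measurableSet_I p))

lemma exists_set (a : T) : ∃ (s : Set ℝ) (hs : MeasurableSet s), (a : L1) = ind s hs := by
  rcases a.2 with h | ⟨p, h⟩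
  · exact ⟨∅, MeasurableSet.empty, h.trans ind_empty.symm⟩
  · exact ⟨I p, measurableSet_I p, h.symm⟩

/-- A set representing a point of `T`. -/
noncomputable def S (a : T) : Set ℝ := (exists_set a).choose

lemma measurableSet_S (a : T) : MeasurableSet (S a) := (exists_set a).choose_spec.choose

lemma dist_eq (a b : T) : dist a b = mu.real (symmDiff (S a) (S b)) := by
  rw [Subtype.dist_eq, (exists_set a).choose_spec.choose_spec,
    (exists_set b).choose_spec.choose_spec, dist_ind]
  rfl

lemma quad_eq (A : Finset T) (w : A → ℝ) :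
    w ⬝ᵥ (simMatrix A).mulVec w =
      ∑ i, ∑ j, w i * w j * Real.exp (-mu.real (symmDiff (S i) (S j))) := by
  simp only [dotProduct, Matrix.mulVec, Finset.mul_sum, simMatrix, dist_eq]
  refine Finset.sum_congr rfl fun i _ => Finset.sum_congr rfl fun j _ => ?_
  ring

lemma posDef (A : Finset T) : (simMatrix A).PosDef := by
  classical
  refine Matrix.PosDef.of_dotProduct_mulVec_pos ?_ fun w hw => ?_
  · ext i j
    simp [simMatrix, dist_comm]
  · rw [star_trivial, quad_eq]
    refine Q183.Mag.symmDiff_quad_pos mu (fun i : A => S i) (fun i => measurableSet_S i) ?_ w hw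
    intro i j hij
    rw [← dist_eq]
    exact dist_pos.2 fun h => hij (Subtype.ext h)

open Classical in
/-- The magnitude is the total weight of a weighting. -/
lemma magnitude_eq_of_posDef {M : Type*} [MetricSpace M] (A : Finset M)
    (hA : (simMatrix A).PosDef) (w : A → ℝ) (hw : (simMatrix A).mulVec w = 1) :
    magnitude A = ∑ i, w i := by
  have h1 : (simMatrix A)⁻¹.mulVec 1 = w := by
    rw [← hw, Matrix.mulVec_mulVec, Matrix.nonsing_inv_mul _
      ((Matrix.isUnit_iff_isUnit_det _).1 hA.isUnit), Matrix.one_mulVec]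
  unfold magnitude
  refine Finset.sum_congr rfl fun i _ => ?_
  rw [← h1]
  simp only [Matrix.mulVec, dotProduct, Pi.one_apply, mul_one]

lemma magnitude_eq (A : Finset T) (w : A → ℝ) (hw : (simMatrix A).mulVec w = 1) :
    magnitude A = ∑ i, w i := magnitude_eq_of_posDef A (posDef A) w hw

lemma magnitude_le (A : Finset T) : magnitude A ≤ Real.exp (1 / 2) := by
  classical
  let w : A → ℝ := (simMatrix A)⁻¹.mulVec 1
  have hw : (simMatrix A).mulVec w = 1 := by
    simp only [w]
    rw [Matrix.mulVec_mulVec, Matrix.mul_nonsing_inv _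
      ((Matrix.isUnit_iff_isUnit_det _).1 (posDef A).isUnit), Matrix.one_mulVec]
  rw [magnitude_eq A w hw]
  have h1 := Q183.Mag.symmDiff_quad_ge mu (fun i : A => S i) (fun i => measurableSet_S i) w
  rw [← quad_eq, hw] at h1
  have h2 : w ⬝ᵥ (1 : A → ℝ) = ∑ i, w i := by simp [dotProduct]
  rw [h2] at h1
  by_contra hlt
  push Not at hlt
  have h3 : Real.exp (-(1 / 2)) * Real.exp (1 / 2) = 1 := by
    rw [← Real.exp_add]
    simp
  have h4 := Real.exp_pos (1 / 2)
  have h5 := Real.exp_pos (-(1 / 2))
  nlinarith [mul_lt_mul_of_pos_left hlt h5]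

lemma compactMagnitude_le (K : Set T) : compactMagnitude K ≤ ((Real.exp (1 / 2) : ℝ) : EReal) :=
  iSup_le fun A => iSup_le fun _ => EReal.coe_le_coe_iff.2 (magnitude_le A)

/-! ### Distances in `T` -/

lemma I_subset (p : Σ n : ℕ, Fin (n + 1)) : I p ⊆ Icc 0 1 := by
  obtain ⟨n, i⟩ := p
  intro x hx
  have h1 : (0 : ℝ) < (n : ℝ) + 1 := by positivity
  have h2 : ((i : ℕ) : ℝ) + 1 ≤ n + 1 := by
    have := i.2
    exact_mod_cast this
  refine ⟨le_trans (by positivity) hx.1, hx.2.le.trans ?_⟩
  change (((i : ℕ) : ℝ) + 1) / ((n : ℝ) + 1) ≤ 1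
  rw [div_le_one h1]
  exact h2

lemma mu_I (p : Σ n : ℕ, Fin (n + 1)) : mu.real (I p) = 1 / (p.1 + 1) := by
  have h1 : mu (I p) = volume (I p) := by
    rw [Measure.restrict_apply (measurableSet_I p), inter_eq_self_of_subset_left (I_subset p)]
  have h2 : (0 : ℝ) < (p.1 : ℝ) + 1 := by positivity
  have h3 : (((p.2 : ℕ) : ℝ) + 1) / ((p.1 : ℝ) + 1) - ((p.2 : ℕ) : ℝ) / ((p.1 : ℝ) + 1) =
      1 / (p.1 + 1) := by
    field_simp
    ring
  rw [measureReal_def, h1, I, Real.volume_Ico, h3, ENNReal.toReal_ofReal (by positivity)]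

lemma disjoint_I (n : ℕ) (i j : Fin (n + 1)) (hij : i ≠ j) : Disjoint (I ⟨n, i⟩) (I ⟨n, j⟩) := by
  have h2 : (0 : ℝ) < (n : ℝ) + 1 := by positivity
  rw [I, I, Ico_disjoint_Ico]
  rcases lt_or_gt_of_ne (fun h => hij (Fin.ext h) : (i : ℕ) ≠ j) with h | h
  · refine (min_le_left _ _).trans (le_trans ?_ (le_max_right _ _))
    change (((i : ℕ) : ℝ) + 1) / ((n : ℝ) + 1) ≤ ((j : ℕ) : ℝ) / ((n : ℝ) + 1)
    gcongr
    exact_mod_cast h
  · refine (min_le_right _ _).trans (le_trans ?_ (le_max_left _ _))
    change (((j : ℕ) : ℝ) + 1) / ((n : ℝ) + 1) ≤ ((i : ℕ) : ℝ) / ((n : ℝ) + 1)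
    gcongr
    exact_mod_cast h

/-- The origin of `T`. -/
noncomputable def o : T := ⟨0, mem_insert _ _⟩

/-- The indicator function of `[i/(n+1), (i+1)/(n+1))` as a point of `T`. -/
noncomputable def x (n : ℕ) (i : Fin (n + 1)) : T :=
  ⟨ind (I ⟨n, i⟩) (measurableSet_I _), mem_insert_of_mem _ ⟨⟨n, i⟩, rfl⟩⟩

lemma dist_o_x (n : ℕ) (i : Fin (n + 1)) : dist o (x n i) = 1 / (n + 1) := by
  change dist (0 : L1) (ind (I ⟨n, i⟩) (measurableSet_I _)) = _
  rw [← ind_empty, dist_ind]
  have : symmDiff (∅ : Set ℝ) (I ⟨n, i⟩) = I ⟨n, i⟩ := bot_symmDiff _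
  rw [this, mu_I]

lemma dist_x_x (n : ℕ) (i j : Fin (n + 1)) (hij : i ≠ j) :
    dist (x n i) (x n j) = 2 / (n + 1) := by
  change dist (ind (I ⟨n, i⟩) (measurableSet_I _)) (ind (I ⟨n, j⟩) (measurableSet_I _)) = _
  rw [dist_ind, (disjoint_I n i j hij).symmDiff_eq_sup]
  change mu.real (I ⟨n, i⟩ ∪ I ⟨n, j⟩) = _
  rw [measureReal_union (disjoint_I n i j hij) (measurableSet_I _), mu_I, mu_I]
  ring

lemma isCompact_T : IsCompact T := by
  have : Tendsto (fun p => ind (I p) (measurableSet_I p)) cofinite (𝓝 (0 : L1)) := by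
    rw [Metric.tendsto_nhds]
    intro ε hε
    obtain ⟨N, hN⟩ := exists_nat_one_div_lt hε
    rw [eventually_cofinite]
    refine Set.Finite.subset (s := ⋃ n ∈ Finset.range N, range fun i : Fin (n + 1) =>
      (⟨n, i⟩ : Σ n : ℕ, Fin (n + 1))) ?_ ?_
    · exact Set.Finite.biUnion (Finset.finite_toSet _) fun n _ => finite_range _
    · rintro ⟨n, i⟩ hp
      simp only [mem_iUnion, Finset.mem_range]
      refine ⟨n, ?_, ⟨i, rfl⟩⟩
      by_contra hn
      push Not at hn
      apply hp
      have h := dist_o_x n i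
      rw [dist_comm] at h
      change dist (ind (I ⟨n, i⟩) (measurableSet_I _)) (0 : L1) = _ at h
      rw [h]
      refine lt_of_le_of_lt ?_ hN
      gcongr
  exact this.isCompact_insert_range_of_cofinite

lemma tractable_T : Tractable T where
  positiveDefinite A _ := posDef A
  heineBorel K hK _ := by
    have : CompactSpace T := isCompact_iff_compactSpace.1 isCompact_T
    exact hK.isCompact
  ball_lt_top y r := lt_of_le_of_lt (compactMagnitude_le _) (EReal.coe_lt_top _)

/-! ### The sets `A_N` -/

lemma o_ne_x (n : ℕ) (i : Fin (n + 1)) : o ≠ x n i := by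
  intro h
  have := dist_o_x n i
  rw [← h, dist_self] at this
  have h2 : (0 : ℝ) < 1 / ((n : ℝ) + 1) := by positivity
  exact absurd this h2.ne

lemma x_injective (n : ℕ) : Function.Injective (x n) := by
  intro i j h
  by_contra hij
  have := dist_x_x n i j hij
  rw [h, dist_self] at this
  have h2 : (0 : ℝ) < 2 / ((n : ℝ) + 1) := by positivity
  exact absurd this h2.ne

/-- The points of `A_{n+1}`. -/
noncomputable def pt (n : ℕ) : Option (Fin (n + 1)) → T := fun a => a.elim o (x n)

lemma pt_injective (n : ℕ) : Function.Injective (pt n) := by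
  rintro (_ | i) (_ | j) h
  · rfl
  · exact absurd h (o_ne_x n j)
  · exact absurd h.symm (o_ne_x n i)
  · exact congrArg some (x_injective n h)

/-- The set `A_{n+1}`. -/
noncomputable def star (n : ℕ) : Finset T := Finset.univ.map ⟨pt n, pt_injective n⟩

/-- `A_{n+1}` is indexed by `Option (Fin (n+1))`. -/
noncomputable def starEquiv (n : ℕ) : Option (Fin (n + 1)) ≃ star n :=
  (Equiv.ofInjective (pt n) (pt_injective n)).trans (Equiv.setCongr (by
    ext y
    simp [star]))

lemma starEquiv_apply (n : ℕ) (a : Option (Fin (n + 1))) : ((starEquiv n a : star n) : T) = pt n a :=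
  rfl

/-- Lower bound of the magnitude of `A_{n+1}`. -/
lemma magnitude_star (n : ℕ) : 5 / 4 ≤ magnitude (star n) := by
  classical
  have hn : (0 : ℝ) < (n : ℝ) + 1 := by positivity
  set q : ℝ := Real.exp (-(1 / ((n : ℝ) + 1))) with hq
  have hq0 : 0 < q := Real.exp_pos _
  have hq2 : Real.exp (-(2 / ((n : ℝ) + 1))) = q ^ 2 := by
    rw [hq, ← Real.exp_nat_mul]
    congr 1
    push_cast
    ring
  let v : Option (Fin (n + 1)) → ℝ := fun a => a.elim (1 - (n + 1) * q / (1 + q)) fun _ => 1 / (1 + q)
  have hv : ∀ a, ∑ b, Real.exp (-dist (pt n a) (pt n b)) * v b = 1 := by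
    rintro (_ | i)
    · rw [Fintype.sum_option]
      have h1 : ∀ j : Fin (n + 1), Real.exp (-dist (pt n none) (pt n (some j))) * v (some j) =
          q * (1 / (1 + q)) := by
        intro j
        change Real.exp (-dist o (x n j)) * (1 / (1 + q)) = _
        rw [dist_o_x]
      rw [Finset.sum_congr rfl fun j _ => h1 j, dist_self]
      simp only [neg_zero, Real.exp_zero, one_mul, Finset.sum_const, Finset.card_univ,
        Fintype.card_fin, nsmul_eq_mul]
      change 1 - ((n : ℝ) + 1) * q / (1 + q) + ((n + 1 : ℕ) : ℝ) * (q * (1 / (1 + q))) = 1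
      push_cast
      field_simp
      ring
    · rw [Fintype.sum_option, Fintype.sum_eq_add_sum_compl i]
      have h1 : ∀ j ∈ ({i}ᶜ : Finset (Fin (n + 1))),
          Real.exp (-dist (pt n (some i)) (pt n (some j))) * v (some j) = q ^ 2 * (1 / (1 + q)) := by
        intro j hj
        change Real.exp (-dist (x n i) (x n j)) * (1 / (1 + q)) = _
        rw [dist_x_x n i j (fun h => by simp [h] at hj), hq2]
      have h2 : Real.exp (-dist (pt n (some i)) (pt n none)) = q := by
        change Real.exp (-dist (x n i) o) = _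
        rw [dist_comm, dist_o_x]
      rw [Finset.sum_congr rfl h1, dist_self, h2, Finset.sum_const, Finset.card_compl,
        Finset.card_singleton, Fintype.card_fin]
      simp only [neg_zero, Real.exp_zero, one_mul, nsmul_eq_mul, Nat.add_sub_cancel]
      change q * (1 - ((n : ℝ) + 1) * q / (1 + q)) + (1 / (1 + q) + (n : ℝ) * (q ^ 2 * (1 / (1 + q))))
        = 1
      field_simp
      ring
  have hw : (simMatrix (star n)).mulVec (fun b => v ((starEquiv n).symm b)) = 1 := by
    funext a
    rw [Matrix.mulVec, dotProduct, ← Equiv.sum_comp (starEquiv n)]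
    simp only [Equiv.symm_apply_apply, Pi.one_apply]
    refine Eq.trans ?_ (hv ((starEquiv n).symm a))
    refine Finset.sum_congr rfl fun b _ => ?_
    rw [simMatrix, starEquiv_apply]
    congr 4
    rw [← starEquiv_apply, Equiv.apply_symm_apply]
  rw [magnitude_eq _ _ hw, ← Equiv.sum_comp (starEquiv n)]
  simp only [Equiv.symm_apply_apply]
  rw [Fintype.sum_option]
  simp only [v, Option.elim, Finset.sum_const, Finset.card_univ, Fintype.card_fin, nsmul_eq_mul]
  push_cast
  have h3 : 1 / ((n : ℝ) + 1) ≤ 1 := by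
    rw [div_le_one hn]
    have : (0 : ℝ) ≤ n := Nat.cast_nonneg n
    linarith
  have h4 : (0 : ℝ) < 1 / ((n : ℝ) + 1) := by positivity
  have h5 : q ≤ 1 - 1 / ((n : ℝ) + 1) / 2 := by
    have h6 : 1 + 1 / ((n : ℝ) + 1) ≤ Real.exp (1 / ((n : ℝ) + 1)) := by
      have := Real.add_one_le_exp (1 / ((n : ℝ) + 1))
      linarith
    have h7 : q * Real.exp (1 / ((n : ℝ) + 1)) = 1 := by
      rw [hq, ← Real.exp_add]
      simp
    have h8 : q * (1 + 1 / ((n : ℝ) + 1)) ≤ 1 := by
      have h9 := mul_le_mul_of_nonneg_left h6 hq0.le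
      rwa [h7] at h9
    by_contra hlt
    push Not at hlt
    nlinarith
  have h6 : ((n : ℝ) + 1) * (1 / ((n : ℝ) + 1)) = 1 := by field_simp
  have h7 : ((n : ℝ) + 1) * (1 - q) ≥ 1 / 2 := by nlinarith
  have h8 : q ≤ 1 := by linarith
  have h9 : 1 - ((n : ℝ) + 1) * q / (1 + q) + ((n : ℝ) + 1) * (1 / (1 + q)) =
      1 + ((n : ℝ) + 1) * (1 - q) / (1 + q) := by
    field_simp
    ring
  rw [h9]
  have h10 : 1 / 4 ≤ ((n : ℝ) + 1) * (1 - q) / (1 + q) := by
    rw [le_div_iff₀ (by positivity)]
    linarith
  linarith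

lemma magnitude_singleton (y : T) : magnitude {y} = 1 := by
  classical
  rw [magnitude_eq {y} (fun _ => 1)]
  · simp
  · funext a
    have ha : (a : T) = y := Finset.mem_singleton.1 a.2
    simp only [Matrix.mulVec, dotProduct, mul_one, Pi.one_apply, simMatrix]
    rw [Fintype.sum_eq_single a]
    · simp
    · intro b hb
      exact absurd (Subtype.ext ((Finset.mem_singleton.1 b.2).trans ha.symm)) hb

lemma compactMagnitude_singleton (y : T) : compactMagnitude ({y} : Set T) = 1 := by
  apply le_antisymm
  · refine iSup_le fun A => iSup_le fun hA => ?_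
    have : A = {y} := by
      obtain ⟨hne, hsub⟩ := hA
      refine Finset.Nonempty.subset_singleton_iff hne |>.1 ?_
      intro z hz
      exact Finset.mem_singleton.2 (hsub hz)
    rw [this, magnitude_singleton]
    simp
  · refine le_iSup_of_le {y} (le_iSup_of_le ⟨Finset.singleton_nonempty y, by simp⟩ ?_)
    rw [magnitude_singleton]
    simp

/-- `A_{n+1}` as a non-empty compact set. -/
noncomputable def starC (n : ℕ) : NonemptyCompacts T :=
  ⟨⟨star n, (star n).finite_toSet.isCompact⟩, ⟨o, by
    change o ∈ star n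
    exact Finset.mem_map.2 ⟨none, Finset.mem_univ _, rfl⟩⟩⟩

/-- `A_{n+1}` as a non-empty finite set. -/
noncomputable def starF (n : ℕ) : FinPlus T := ⟨starC n, (star n).finite_toSet⟩

/-- The singleton `{o}`. -/
noncomputable def oF : FinPlus T := ⟨{o}, by
  simp⟩

lemma tendsto_starC : Tendsto starC atTop (𝓝 ({o} : NonemptyCompacts T)) := by
  rw [tendsto_iff_dist_tendsto_zero]
  refine squeeze_zero (fun _ => dist_nonneg) (fun n => ?_) tendsto_one_div_add_atTop_nhds_zero_nat
  rw [Metric.NonemptyCompacts.dist_eq]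
  refine Metric.hausdorffDist_le_of_mem_dist (by positivity) ?_ ?_
  · intro y hy
    refine ⟨o, by simp, ?_⟩
    obtain ⟨a, _, ha⟩ := Finset.mem_map.1 (show y ∈ star n from hy)
    rcases a with _ | i
    · have : y = o := ha.symm
      rw [this, dist_self]
      positivity
    · have : y = x n i := ha.symm
      rw [this, dist_comm, dist_o_x]
  · intro y hy
    have : y = o := by simpa using hy
    refine ⟨o, (starC n).2.some_mem |> fun _ => ?_, ?_⟩
    · change o ∈ star n
      exact Finset.mem_map.2 ⟨none, Finset.mem_univ _, rfl⟩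
    · rw [this, dist_self]
      positivity

lemma not_continuousAt_magFin : ¬ ContinuousAt (magFin T) oF := by
  intro h
  have h1 : Tendsto starF atTop (𝓝 oF) := tendsto_subtype_rng.2 tendsto_starC
  have h2 := h.tendsto.comp h1
  have h3 : magFin T oF = 1 := by
    have : oF.2.toFinset = {o} := by
      ext z
      simp [oF]
    rw [magFin, this, magnitude_singleton]
  rw [h3] at h2
  have h4 : ∀ n, 5 / 4 ≤ (magFin T ∘ starF) n := by
    intro n
    have : (starF n).2.toFinset = star n := by
      ext z
      rw [Set.Finite.mem_toFinset]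
      exact Iff.rfl
    simp only [Function.comp_apply, magFin, this]
    exact magnitude_star n
  have := ge_of_tendsto' h2 h4
  norm_num at this

lemma not_continuousAt_magCmp : ¬ ContinuousAt (magCmp T) {o} := by
  intro h
  have h2 := h.tendsto.comp tendsto_starC
  have h3 : magCmp T {o} = 1 := by
    rw [magCmp]
    have : (({o} : NonemptyCompacts T) : Set T) = {o} := by simp
    rw [this, compactMagnitude_singleton]
    simp
  rw [h3] at h2
  have h4 : ∀ n, 5 / 4 ≤ (magCmp T ∘ starC) n := by
    intro n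
    simp only [Function.comp_apply, magCmp]
    have h5 : (magnitude (star n) : EReal) ≤ compactMagnitude (starC n : Set T) :=
      le_iSup_of_le (star n) (le_iSup_of_le ⟨⟨o, Finset.mem_map.2 ⟨none, Finset.mem_univ _, rfl⟩⟩,
        fun z hz => hz⟩ le_rfl)
    have h6 := compactMagnitude_le (starC n : Set T)
    have h7 := EReal.toReal_le_toReal h5 (EReal.coe_ne_bot _)
      (ne_top_of_le_ne_top (EReal.coe_ne_top _) h6)
    rw [EReal.toReal_coe] at h7
    exact (magnitude_star n).trans h7
  have := ge_of_tendsto' h2 h4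
  norm_num at this

/-- There is a compact tractable subspace `T` of `L₁([0,1])` and a point `o` of `T` such that both
magnitude maps `mag_Fin` and `mag_Cmp` of `T` are discontinuous at the singleton `{o}`. -/
theorem result : ∃ T : Set L1, IsCompact T ∧ Tractable T ∧ ∃ K : FinPlus T,
    (∃ o : T, (K : Set T) = {o}) ∧ ¬ ContinuousAt (magFin T) K ∧
      ¬ ContinuousAt (magCmp T) (K : NonemptyCompacts T) :=
  ⟨T, isCompact_T, tractable_T, oF, ⟨o, by simp [oF]⟩, not_continuousAt_magFin,
    not_continuousAt_magCmp⟩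

end Pool.Agent.Results.MP_17ecd9_gt.TractableStars
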